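import Mathlib

set_option autoImplicit false

namespace Pool.Agent.Results.MP_c20855_lc.NotEpsilonZero

open Ordinal

/-- The real number with binary digits `b_{i+1}, b_{i+2}, ...`, that is
`a_i = sum_{n >= 1} b_{n+i} 2^{-n}`. -/
noncomputable def shiftValue (b : ℕ → Fin 2) (i : ℕ) : ℝ :=
  ∑' n : ℕ, ((b (n + 1 + i) : ℕ) : ℝ) / 2 ^ (n + 1)

/-- The set `A(b) = {a_i : i >= 0}` of real numbers. -/
def shiftSet (b : ℕ → Fin 2) : Set ℝ := Set.range (shiftValue b)

lemma digit_le (b : ℕ → Fin 2) (j : ℕ) : ((b j : ℕ) : ℝ) ≤ 1 := by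
  have := (b j).isLt
  exact_mod_cast (by omega : (b j : ℕ) ≤ 1)

lemma geo_eq (n : ℕ) : (1 : ℝ) / 2 ^ (n + 1) = (1 / 2 : ℝ) * (1 / 2) ^ n := by
  rw [pow_succ, one_div_pow]
  field_simp

lemma summable_geo : Summable (fun n : ℕ => (1 : ℝ) / 2 ^ (n + 1)) := by
  simp_rw [geo_eq]
  exact summable_geometric_two.mul_left (1 / 2 : ℝ)

lemma tsum_geo : ∑' n : ℕ, (1 : ℝ) / 2 ^ (n + 1) = 1 := by
  simp_rw [geo_eq]
  rw [tsum_mul_left, tsum_geometric_two]
  norm_num

lemma summable_digits (b : ℕ → Fin 2) (i : ℕ) :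
    Summable (fun n : ℕ => ((b (n + 1 + i) : ℕ) : ℝ) / 2 ^ (n + 1)) := by
  refine Summable.of_nonneg_of_le (fun n => by positivity) (fun n => ?_) summable_geo
  exact div_le_div_of_nonneg_right (digit_le b _) (by positivity)

lemma shiftValue_nonneg (b : ℕ → Fin 2) (i : ℕ) : 0 ≤ shiftValue b i :=
  tsum_nonneg fun n => by positivity

lemma shiftValue_le_one (b : ℕ → Fin 2) (i : ℕ) : shiftValue b i ≤ 1 := by
  rw [← tsum_geo]
  refine Summable.tsum_le_tsum (fun n => ?_) (summable_digits b i) summable_geo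
  exact div_le_div_of_nonneg_right (digit_le b _) (by positivity)

/-- Removing the first digit: `a_{i+1} = 2 a_i - b_{i+1}`. -/
lemma shiftValue_succ (b : ℕ → Fin 2) (i : ℕ) :
    shiftValue b (i + 1) = 2 * shiftValue b i - ((b (i + 1) : ℕ) : ℝ) := by
  have h := (summable_digits b i).tsum_eq_zero_add
  have h2 : ∑' n : ℕ, ((b (n + 1 + 1 + i) : ℕ) : ℝ) / 2 ^ (n + 1 + 1)
      = (1 / 2) * shiftValue b (i + 1) := by
    unfold shiftValue
    rw [← tsum_mul_left]
    congr 1
    funext n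
    have e : n + 1 + 1 + i = n + 1 + (i + 1) := by ring
    rw [e, pow_succ (2 : ℝ) (n + 1)]
    ring
  have h3 : shiftValue b i = ((b (i + 1) : ℕ) : ℝ) / 2 + (1 / 2) * shiftValue b (i + 1) := by
    rw [← h2]
    unfold shiftValue
    rw [h]
    congr 1
    · have e : 0 + 1 + i = i + 1 := by ring
      rw [e]
      norm_num
  rw [h3]
  ring

/-- What is needed of `A(b)`: it lies in `[0,1]`, and doubling modulo one maps it to itself. -/
lemma mem_unit {b : ℕ → Fin 2} {x : ℝ} (hx : x ∈ shiftSet b) : 0 ≤ x ∧ x ≤ 1 := by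
  obtain ⟨i, rfl⟩ := hx
  exact ⟨shiftValue_nonneg b i, shiftValue_le_one b i⟩

lemma double_mem {b : ℕ → Fin 2} {x : ℝ} (hx : x ∈ shiftSet b) (h : x < 1 / 2) :
    2 * x ∈ shiftSet b := by
  obtain ⟨i, rfl⟩ := hx
  refine ⟨i + 1, ?_⟩
  have h1 := shiftValue_succ b i
  have h0 := shiftValue_nonneg b (i + 1)
  have hb : (b (i + 1) : ℕ) = 0 ∨ (b (i + 1) : ℕ) = 1 := by
    have := (b (i + 1)).isLt
    omega
  rcases hb with hb | hb
  · rw [hb] at h1
    rw [h1]
    simp
  · rw [hb] at h1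
    push_cast at h1
    linarith

lemma double_sub_mem {b : ℕ → Fin 2} {x : ℝ} (hx : x ∈ shiftSet b) (h : 1 / 2 < x) :
    2 * x - 1 ∈ shiftSet b := by
  obtain ⟨i, rfl⟩ := hx
  refine ⟨i + 1, ?_⟩
  have h1 := shiftValue_succ b i
  have h0 := shiftValue_le_one b (i + 1)
  have hb : (b (i + 1) : ℕ) = 0 ∨ (b (i + 1) : ℕ) = 1 := by
    have := (b (i + 1)).isLt
    omega
  rcases hb with hb | hb
  · rw [hb] at h1
    push_cast at h1
    linarith
  · rw [hb] at h1
    rw [h1]
    simp

/-! ### The order-theoretic part -/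

section General

variable {S : Set ℝ}

/-- For `x < 1` some iterate of `x ↦ 2 x - 1` is at most `1/2`. -/
lemma exists_level {x : ℝ} (hx : x < 1) : ∃ n : ℕ, 1 - 2 ^ n * (1 - x) ≤ 1 / 2 := by
  obtain ⟨n, hn⟩ := pow_unbounded_of_one_lt (1 / (1 - x)) (by norm_num : (1 : ℝ) < 2)
  refine ⟨n, ?_⟩
  have h1 : 0 < 1 - x := by linarith
  rw [div_lt_iff₀ h1] at hn
  linarith

open Classical in
/-- The number of leading ones of `x`. -/
noncomputable def level (x : ℝ) : ℕ :=
  if hx : x < 1 then Nat.find (exists_level hx) else 0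

lemma level_spec {x : ℝ} (hx : x < 1) : 1 - 2 ^ level x * (1 - x) ≤ 1 / 2 := by
  classical
  unfold level
  rw [dif_pos hx]
  exact Nat.find_spec (exists_level hx)

lemma level_min {x : ℝ} (hx : x < 1) {m : ℕ} (hm : 1 - 2 ^ m * (1 - x) ≤ 1 / 2) :
    level x ≤ m := by
  classical
  unfold level
  rw [dif_pos hx]
  exact Nat.find_min' _ hm

lemma level_mono {x y : ℝ} (hy : y < 1) (hxy : x < y) : level x ≤ level y := by
  apply level_min (hxy.trans hy)
  have h := level_spec hy
  have h2 : (0 : ℝ) < 2 ^ level y := by positivity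
  nlinarith

lemma iter_mem (hS : ∀ x ∈ S, 1 / 2 < x → 2 * x - 1 ∈ S) {x : ℝ} (hx : x ∈ S) (hx1 : x < 1) :
    ∀ m ≤ level x, 1 - 2 ^ m * (1 - x) ∈ S := by
  intro m
  induction m with
  | zero =>
    intro _
    have e : 1 - 2 ^ 0 * (1 - x) = x := by ring
    rwa [e]
  | succ k ih =>
    intro hk
    have h1 := ih (by omega)
    have h2 : 1 / 2 < 1 - 2 ^ k * (1 - x) := by
      by_contra hcon
      have := level_min hx1 (not_lt.1 hcon)
      omega
    have h3 := hS _ h1 h2
    have e : 2 * (1 - 2 ^ k * (1 - x)) - 1 = 1 - 2 ^ (k + 1) * (1 - x) := by ring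
    rwa [e] at h3

/-- The lower half of `S`. -/
abbrev Lower (S : Set ℝ) : Type := {x : S // (x : ℝ) ≤ 1 / 2}

instance lowerWO [IsWellOrder S (· < ·)] : IsWellOrder (Lower S) (· < ·) :=
  inferInstanceAs (IsWellOrder {x : S // (x : ℝ) ≤ 1 / 2} (Subrel (· < ·) _))

/-- If all elements of `S` are below one and `S` is closed under `x ↦ 2 x - 1` on its upper half,
then the order type of `S` is at most `ω` times the order type of the lower half. -/
lemma type_le_mul [IsWellOrder S (· < ·)] (hS : ∀ x ∈ S, 1 / 2 < x → 2 * x - 1 ∈ S)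
    (h1 : ∀ x ∈ S, x < 1) :
    type (α := S) (· < ·) ≤ type (α := Lower S) (· < ·) * ω := by
  have key : type (α := Lower S) (· < ·) * ω
      = type (Prod.Lex (fun m n : ℕ => m < n) (fun x y : Lower S => x < y)) := by
    rw [type_prod_lex]
    congr 1
    exact type_nat_lt.symm
  rw [key, type_le_iff']
  let f : S → ℕ × Lower S := fun x =>
    (level x, ⟨⟨1 - 2 ^ level x * (1 - x), iter_mem hS x.2 (h1 _ x.2) _ le_rfl⟩,
      level_spec (h1 _ x.2)⟩)
  have hf : ∀ x y : S, x < y →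
      Prod.Lex (fun m n : ℕ => m < n) (fun x y : Lower S => x < y) (f x) (f y) := by
    intro x y hxy
    have hxy' : (x : ℝ) < y := hxy
    rw [Prod.lex_def]
    rcases (level_mono (h1 _ y.2) hxy').lt_or_eq with h | h
    · exact Or.inl h
    · refine Or.inr ⟨h, ?_⟩
      change (1 - 2 ^ level x * (1 - (x : ℝ))) < 1 - 2 ^ level y * (1 - (y : ℝ))
      rw [h]
      have h2 : (0 : ℝ) < 2 ^ level (y : ℝ) := by positivity
      nlinarith
  exact ⟨RelEmbedding.ofMonotone f hf⟩

/-- If some element of `S` is above one half then the lower half has smaller order type. -/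
lemma type_lower_lt [IsWellOrder S (· < ·)] (h : ∃ x ∈ S, (1 : ℝ) / 2 < x) :
    type (α := Lower S) (· < ·) < type (α := S) (· < ·) := by
  obtain ⟨x, hx, hx2⟩ := h
  refine lt_of_le_of_lt ?_ (typein_lt_type (α := S) (· < ·) ⟨x, hx⟩)
  rw [← type_subrel, type_le_iff']
  have hlt : ∀ y : Lower S, y.1 < (⟨x, hx⟩ : S) := fun y =>
    show ((y.1 : S) : ℝ) < x from lt_of_le_of_lt y.2 hx2
  exact ⟨RelEmbedding.ofMonotone (fun y : Lower S => ⟨y.1, hlt y⟩) (fun a b hab => hab)⟩

/-- A well-ordered set whose order type is a limit has no largest element. -/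
lemma exists_gt_of_limit [IsWellOrder S (· < ·)]
    (h : Order.IsSuccLimit (type (α := S) (· < ·))) (x : S) : ∃ y : S, x < y := by
  have h1 := typein_lt_type (α := S) (· < ·) x
  have h2 : Order.succ (typein (α := S) (· < ·) x) < type (α := S) (· < ·) := h.succ_lt h1
  obtain ⟨y, hy⟩ := typein_surj (α := S) (· < ·) h2
  refine ⟨y, ?_⟩
  rw [← typein_lt_typein (α := S) (· < ·), hy]
  exact Order.lt_succ _

/-- The order type of a set with the closure properties of `A(b)` is never `ω ^ l` with `l` a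
limit ordinal. -/
lemma type_ne_opow [IsWellOrder S (· < ·)] (hU : ∀ x ∈ S, 0 ≤ x ∧ x ≤ 1)
    (hD : ∀ x ∈ S, x < 1 / 2 → 2 * x ∈ S) (hS : ∀ x ∈ S, 1 / 2 < x → 2 * x - 1 ∈ S)
    (l : Ordinal.{0}) (hl : Order.IsSuccLimit l) : type (α := S) (· < ·) ≠ ω ^ l := by
  intro he
  have hlim : Order.IsSuccLimit (type (α := S) (· < ·)) := by
    rw [he]
    exact isSuccLimit_opow one_lt_omega0 hl
  have hmax := exists_gt_of_limit hlim
  have h1 : ∀ x ∈ S, x < 1 := by
    intro x hx
    obtain ⟨y, hy⟩ := hmax ⟨x, hx⟩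
    have : x < y := hy
    exact this.trans_le (hU _ y.2).2
  have h2 : ∃ x ∈ S, (1 : ℝ) / 2 < x := by
    by_contra hcon
    push Not at hcon
    have h3 : ∀ x ∈ S, x < 1 / 2 := by
      intro x hx
      obtain ⟨y, hy⟩ := hmax ⟨x, hx⟩
      have : x < y := hy
      exact this.trans_le (hcon _ y.2)
    have h4 : ∀ x ∈ S, ∀ n : ℕ, 2 ^ n * x ∈ S := by
      intro x hx n
      induction n with
      | zero => simpa using hx
      | succ k ih =>
        have := hD _ ih (h3 _ ih)
        have e : 2 * (2 ^ k * x) = 2 ^ (k + 1) * x := by ring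
        rwa [e] at this
    have h5 : ∀ x ∈ S, x ≤ 0 := by
      intro x hx
      by_contra hx0
      push Not at hx0
      obtain ⟨n, hn⟩ := pow_unbounded_of_one_lt (1 / x) (by norm_num : (1 : ℝ) < 2)
      rw [div_lt_iff₀ hx0] at hn
      exact absurd (hU _ (h4 x hx n)).2 (not_le.2 hn)
    have hne : Nonempty S := by
      rw [← type_ne_zero_iff_nonempty (r := (· < · : S → S → Prop))]
      exact hlim.ne_bot
    obtain ⟨x⟩ := hne
    obtain ⟨y, hy⟩ := hmax x
    have h6 : (x : ℝ) < y := hy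
    have h7 := (hU _ x.2).1
    have h8 := h5 _ y.2
    linarith
  have hle := type_le_mul hS h1
  have hlt := type_lower_lt h2
  rw [he] at hle hlt
  rw [lt_opow_of_isSuccLimit omega0_ne_zero hl] at hlt
  obtain ⟨c, hc, hlt⟩ := hlt
  have h9 : type (α := Lower S) (· < ·) * ω ≤ ω ^ (Order.succ c) := by
    rw [opow_succ]
    exact mul_le_mul_left hlt.le ω
  have h10 : ω ^ (Order.succ c) < ω ^ l :=
    (opow_lt_opow_iff_right one_lt_omega0).2 (hl.succ_lt hc)
  exact absurd (hle.trans h9) (not_le.2 h10)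

end General

/-- The set `A(b)` of any sequence, when well-ordered, has order type different from `ε₀`. -/
lemma type_shiftSet_ne (b : ℕ → Fin 2) [IsWellOrder (shiftSet b) (· < ·)] :
    type (fun x y : shiftSet b => x < y) ≠ ε₀ := by
  have hl : Order.IsSuccLimit (ε₀ : Ordinal.{0}) := by
    rw [← omega0_opow_epsilon]
    exact isSuccLimit_opow_left isSuccLimit_omega0 (epsilon_pos 0).ne'
  have h := type_ne_opow (S := shiftSet b) (fun x hx => mem_unit hx)
    (fun x hx h => double_mem hx h) (fun x hx h => double_sub_mem hx h) ε₀ hl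
  rwa [omega0_opow_epsilon] at h

/-- There is no binary sequence `b` such that `A(b)` is well-ordered of order type `ε₀`. -/
theorem result :
    ¬ ∃ b : ℕ → Fin 2, ∃ _ : IsWellOrder (shiftSet b) (fun x y => x < y),
      type (fun x y : shiftSet b => x < y) = ε₀ := by
  rintro ⟨b, hb, h⟩
  exact type_shiftSet_ne b h

end Pool.Agent.Results.MP_c20855_lc.NotEpsilonZero
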